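import Pool.Agent.H88.E2.Grb
import Pool.Agent.H93.UB.Lzh

/-!
# H1-UX-HFX: the weights of level zero are numbers of fixed points (MP_b39724_nt, all classes, UBX, module U5)

`hcl_fx`: if the representative of the class `i` is in `N`, the sum over the class of the weights `Gd N 0 g x` is the number of the fixed points of
`x N` on `(P ⧸ N) ⧸ (image of the centraliser)`.
-/

set_option autoImplicit false
set_option linter.dupNamespace false

open scoped NumberField
open IsDedekindDomain
open scoped Classical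

noncomputable section

namespace H1.UX

open H63.MA H38.BB H38.BG H57.PC H57.BRA H77.PC3 H77.WD Pool.Agent.H19.NF Pool.Agent.H19.AB H86.AP H88.E2 H35.UB
  H93.UB H35.CF

variable {p Nc : ℕ} {P : Type} [Group P] [Fintype P]

theorem hcl_fx (c : CL p Nc P) (N : Subgroup P) [N.Normal] (i : Fin Nc) (hi : c.g i ∈ N)
    (q : P ⧸ N) :
    hcl c N i q = H77.PT.fx ((Subgroup.centralizer {c.g i}).map (QuotientGroup.mk' N)) q := by
  have : NeZero (p ^ 0) := ⟨by rw [pow_zero]; exact one_ne_zero⟩
  have hsub : Subsingleton (ZMod (p ^ 0)) := by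
    rw [pow_zero]
    infer_instance
  obtain ⟨x, rfl⟩ := QuotientGroup.mk_surjective q
  have hS : Sta p 0 0 (QuotientGroup.mk' N) (fun _ _ => (0 : ZMod (p ^ 0)))
      (fun _ _ _ => (0 : ZMod (p ^ 0))) := by
    constructor
    · constructor <;> intros <;> exact Subsingleton.elim _ _
    · constructor <;> intros <;> exact Subsingleton.elim _ _
    · intro _ _ _
      exact Subsingleton.elim _ _
    · intro _ _ _ _
      exact Subsingleton.elim _ _
    · intro _ _
      exact Subsingleton.elim _ _
    · intro _ _ _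
      exact Subsingleton.elim _ _
  have hg1 : QuotientGroup.mk' N (c.g i) = 1 := (QuotientGroup.eq_one_iff (c.g i)).2 hi
  have hv := vg_perm (p := p) (m := 0) (l := 0) (QuotientGroup.mk'_surjective N) hS hg1
    (fun _ _ => Subsingleton.elim _ _) (QuotientGroup.mk' N x)
  have hcast : ((hcl c N i (x : P ⧸ N) : ℝ) : ℂ) =
      Vg (QuotientGroup.mk' N) (fun _ _ => (0 : ZMod (p ^ 0))) (c.g i) 1 (QuotientGroup.mk' N x) := by
    have hVV : ∀ σ : P, VV (ch (p ^ 0)) (QuotientGroup.mk' N) (fun _ _ => (0 : ZMod (p ^ 0))) WC σ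
        (QuotientGroup.mk' N x) =
        ((Nat.card {u : N // σ * (x * (u : P)) = x * (u : P) * σ} : ℕ) : ℂ) := by
      intro σ
      unfold VV
      have h1 : ∀ x' : P, (if QuotientGroup.mk' N x' = QuotientGroup.mk' N x then
          WC σ x' * ch (p ^ 0) (- br (fun _ _ => (0 : ZMod (p ^ 0))) σ x') else 0) =
          if x⁻¹ * x' ∈ N ∧ σ * x' = x' * σ then (1 : ℂ) else 0 := by
        intro x'
        have h2 : ch (p ^ 0) (- br (fun _ _ => (0 : ZMod (p ^ 0))) σ x') = 1 := by
          rw [Subsingleton.elim (- br (fun _ _ => (0 : ZMod (p ^ 0))) σ x') 0]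
          exact AddChar.map_zero_eq_one _
        have h3 : QuotientGroup.mk' N x' = QuotientGroup.mk' N x ↔ x⁻¹ * x' ∈ N := by
          rw [eq_comm]
          exact QuotientGroup.eq
        rw [h2, mul_one]
        unfold WC
        by_cases h4 : x⁻¹ * x' ∈ N
        · rw [if_pos (h3.2 h4)]
          by_cases h5 : σ * x' = x' * σ
          · rw [if_pos h5, if_pos ⟨h4, h5⟩]
          · rw [if_neg h5, if_neg fun h => h5 h.2]
        · rw [if_neg fun h => h4 (h3.1 h), if_neg fun h => h4 h.1]
      refine Eq.trans (Finset.sum_congr rfl fun x' _ => (?_ : _ =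
        if x⁻¹ * x' ∈ N ∧ σ * x' = x' * σ then (1 : ℂ) else 0)) ?_
      · convert h1 x'
      rw [← Finset.sum_filter, Finset.sum_const, nsmul_eq_mul, mul_one, Nat.card_eq_fintype_card, Fintype.card_subtype]
      congr 1
      symm
      refine Finset.card_nbij (fun u : N => x * (u : P)) ?_ ?_ ?_
      · intro u hu
        rw [Finset.mem_coe, Finset.mem_filter] at hu
        rw [Finset.mem_coe, Finset.mem_filter]
        refine ⟨Finset.mem_univ _, ?_, hu.2⟩
        rw [inv_mul_cancel_left]
        exact u.2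
      · intro a _ b _ hab
        exact Subtype.ext (mul_left_cancel hab)
      · intro y hy
        rw [Finset.mem_coe, Finset.mem_filter] at hy
        refine ⟨⟨x⁻¹ * y, hy.2.1⟩, ?_, mul_inv_cancel_left x y⟩
        rw [Finset.mem_coe, Finset.mem_filter]
        refine ⟨Finset.mem_univ _, ?_⟩
        show σ * (x * (x⁻¹ * y)) = x * (x⁻¹ * y) * σ
        rw [mul_inv_cancel_left]
        exact hy.2.2
    have hGd : ∀ σ : P, ((Gd N 0 σ x : ℝ) : ℂ) = (Nat.card (QuotientGroup.mk' N).ker : ℂ)⁻¹ *
        VV (ch (p ^ 0)) (QuotientGroup.mk' N) (fun _ _ => (0 : ZMod (p ^ 0))) WC σ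
          (QuotientGroup.mk' N x) := by
      intro σ
      rw [hVV, QuotientGroup.ker_mk']
      unfold Gd
      push_cast
      rw [div_eq_inv_mul]
      rfl
    have hL : hcl c N i (x : P ⧸ N) = ∑ σ : P, if IsConj σ (c.g i) then Gd N 0 σ x else 0 := by
      unfold hcl
      rw [← Finset.sum_filter]
      refine Finset.sum_bij (fun (y : Px c) _ => y.1) ?_ ?_ ?_ ?_
      · intro y hy
        rw [Finset.mem_filter] at hy ⊢
        exact ⟨Finset.mem_univ _, (cid_iff y i).1 hy.2⟩
      · intro a _ b _ hab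
        exact Subtype.ext hab
      · intro σ hσ
        rw [Finset.mem_filter] at hσ
        refine ⟨⟨σ, i, hσ.2⟩, ?_, rfl⟩
        rw [Finset.mem_filter]
        exact ⟨Finset.mem_univ _, (cid_iff _ i).2 hσ.2⟩
      · intro y _
        exact hq_mk N y.1 x
    rw [hL, Complex.ofReal_sum]
    unfold Vg
    rw [Finset.mul_sum]
    refine Finset.sum_congr rfl fun σ _ => ?_
    by_cases h1 : IsConj σ (c.g i)
    · have h2 : QuotientGroup.mk' N σ = 1 := by
        obtain ⟨y, hy⟩ := isConj_iff.1 h1.symm
        rw [← hy, map_mul, map_mul, hg1, mul_one, ← map_mul, mul_inv_cancel, map_one]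
      rw [if_pos h1, if_pos ⟨h1, h2⟩]
      exact hGd σ
    · rw [if_neg h1, if_neg fun h => h1 h.1, mul_zero]
      exact Complex.ofReal_zero
  exact_mod_cast hcast.trans hv

end H1.UX
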