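import Pool.Agent.H55.E2.Ana

/-!
# H1-UX-LIM: `E2Lim` with a finite set of primes removed (MP_b39724_nt, all classes, stage 3, chapter D, module Lim)

`lim_rm`: for `φ : Gal(Ω/K) → G` onto a finite `p`-group, of finite type and unramified outside `S0 ∪ E`, the weighted sum over the rich configurations outside
`E` divided by `Y (log Y)^(N-1)` has a positive limit which depends neither on the number `M` nor on the exponent `ε` of the threshold.
`ws_rm`: weights which vanish on `E`.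
-/

set_option autoImplicit false
set_option linter.dupNamespace false

open scoped NumberField
open NumberField IsDedekindDomain Filter Topology
open scoped Classical

noncomputable section

namespace H1.UX

open H63.MA H38.BB H38.BG H57.PC H51.CUB H77.PC3 H77.PT H77.WE H36.QA H86.AP H35.CF H57.AN
  H51.MM H57.TLS H55.E2

section rm

variable {K : Type} [Field K] [NumberField K] {p : ℕ} {ζ : K} {N : ℕ} [NeZero N]

/-- weights which vanish on `E` -/
theorem ws_rm (D : RD0 K p ζ) (M : ℕ) (T₀ Y : ℝ) (E : Finset (Pl K)) (V : Fin N → Pl K → ℝ) :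
    wS D N M T₀ Y ∅ (fun j v => if v ∈ E then 0 else V j v) = wS D N M T₀ Y E V := by
  have hag : ∀ f : Pl K → Option (Fin N), f ∈ Cf (ZZ D Y \ E) (Fin N) →
      sp (ZZ D Y \ ∅) f = sp (ZZ D Y \ E) f ∧
      (∀ j, pl (ZZ D Y \ ∅) f j = pl (ZZ D Y \ E) f j) ∧ f ∈ Cf (ZZ D Y \ ∅) (Fin N) := by
    intro f hf
    rw [mem_cf] at hf
    have h1 : ∀ v, f v ≠ none → v ∈ ZZ D Y \ E := fun v hv => by
      by_contra h
      exact hv (hf v h)
    refine ⟨?_, ?_, ?_⟩
    · ext v
      unfold sp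
      rw [Finset.mem_filter, Finset.mem_filter, Finset.sdiff_empty]
      constructor
      · rintro ⟨_, h2⟩
        exact ⟨h1 v h2, h2⟩
      · rintro ⟨h2, h3⟩
        exact ⟨(Finset.mem_sdiff.1 h2).1, h3⟩
    · intro j
      ext v
      rw [mem_pl, mem_pl, Finset.sdiff_empty]
      constructor
      · rintro ⟨_, h2⟩
        exact ⟨h1 v (by rw [h2]; exact Option.some_ne_none j), h2⟩
      · rintro ⟨h2, h3⟩
        exact ⟨(Finset.mem_sdiff.1 h2).1, h3⟩
    · rw [mem_cf]
      intro v hv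
      refine hf v fun h => hv ?_
      rw [Finset.sdiff_empty]
      exact (Finset.mem_sdiff.1 h).1
  unfold wS
  symm
  refine Finset.sum_subset_zero_on_sdiff ?_ ?_ ?_
  · intro f hf
    unfold H86.AP.RC at hf ⊢
    rw [Finset.mem_filter] at hf ⊢
    obtain ⟨h1, h2, h3⟩ := hag f hf.1
    refine ⟨h3, ?_, ?_⟩
    · intro j
      rw [h2 j]
      exact hf.2.1 j
    · rw [h1]
      exact hf.2.2
  · intro f hf
    rw [Finset.mem_sdiff] at hf
    obtain ⟨hf1, hf2⟩ := hf
    unfold H86.AP.RC at hf1 hf2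
    rw [Finset.mem_filter] at hf1 hf2
    have h1 : f ∉ Cf (ZZ D Y \ E) (Fin N) := by
      intro h
      obtain ⟨h1, h2, h3⟩ := hag f h
      refine hf2 ⟨h, ?_, ?_⟩
      · intro j
        rw [← h2 j]
        exact hf1.2.1 j
      · rw [← h1]
        exact hf1.2.2
    rw [mem_cf] at h1
    push Not at h1
    obtain ⟨v, hv, hfv⟩ := h1
    have hv2 : v ∈ ZZ D Y \ ∅ := by
      by_contra h
      exact hfv ((mem_cf.1 hf1.1) v h)
    have hvE : v ∈ E := by
      by_contra h
      refine hv (Finset.mem_sdiff.2 ⟨?_, h⟩)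
      rw [Finset.sdiff_empty] at hv2
      exact hv2
    refine Finset.prod_eq_zero (i := v) ?_ ?_
    · unfold sp
      rw [Finset.mem_filter]
      exact ⟨hv2, hfv⟩
    · exact if_pos hvE
  · intro f hf
    unfold H86.AP.RC at hf
    rw [Finset.mem_filter] at hf
    obtain ⟨h1, h2, h3⟩ := hag f hf.1
    rw [h1]
    refine Finset.prod_congr rfl fun v hv => ?_
    have hvE : v ∉ E := by
      unfold sp at hv
      rw [Finset.mem_filter, Finset.mem_sdiff] at hv
      exact hv.1.2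
    exact (if_neg hvE).symm

omit [NeZero N] in
theorem wt_rm (D : RD0 K p ζ) (E : Finset (Pl K)) (V : Fin N → Pl K → ℝ) (v : Pl K) :
    H55.E2.wt D ∅ (fun j v => if v ∈ E then 0 else V j v) v = H55.E2.wt D E V v := by
  unfold H55.E2.wt
  by_cases hE : v ∈ E
  · rw [if_neg (c := D.Gd v ∧ v ∉ E) fun h => h.2 hE]
    simp [hE]
  · by_cases hg : D.Gd v
    · rw [if_pos (c := D.Gd v ∧ v ∉ E) ⟨hg, hE⟩, if_pos ⟨hg, Finset.notMem_empty v⟩]
      simp [hE]
    · rw [if_neg fun h => hg h.1, if_neg fun h => hg h.1]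

end rm

section lim

variable {K : Type} [Field K] [NumberField K] {p : ℕ} {ζ : K} {Ω : Type}
  [Field Ω] [Algebra K Ω] [IsAlgClosure K Ω] {G : Type} [Group G] {N : ℕ} [NeZero N]

/-- the limit with the primes of a finite set removed -/
theorem lim_rm [Finite G] (hp : p.Prime) (hp2 : MOne p K) (hζ : IsPrimitiveRoot ζ p)
    (D : RD0 K p ζ) (L : LDs D Ω) (Fr : FR L) (hG : IsPGroup p G) (S : Fin N → Subgroup G)
    (φ : Gal(Ω/K) →* G) (hφ : H38.ML.FT φ) (hs : Function.Surjective φ) (E : Finset (Pl K))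
    (hU : Unz L E φ) :
    ∃ l : ℝ, 0 < l ∧ ∀ (M : ℕ) (ε : ℝ), 0 < ε → ε < 1 →
    Tendsto (fun Y : ℝ => wS D N M (Real.exp (Real.log Y ^ ε)) Y E
      (fun j v => H77.PT.fx (S j) (φ (Fr.F v))) / (Y * Real.log Y ^ (N - 1))) atTop (𝓝 l) := by
  have hE := unz_inr hp hζ L hG φ E hU
  have hnf := mf_nf φ hφ S
  obtain ⟨l, hl, hlim⟩ := i4 K N (fun j => MF φ (S j))
    (fun j => (mf_tc hp hp2 hζ φ hφ hs (S j)).1) (D.S0 ∪ E) Finset.univ ⟨0, Finset.mem_univ _⟩
  rw [Finset.card_univ, Fintype.card_fin] at hlim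
  obtain ⟨V, hVd⟩ : ∃ V : Fin N → Pl K → ℝ, V = fun j v => if v ∈ E then 0
    else H77.PT.fx (S j) (φ (Fr.F v)) := ⟨_, rfl⟩
  have hw : ∀ v, (lbn K (fun j => MF φ (S j)) Finset.univ (D.S0 ∪ E) v : ℝ) =
      H55.E2.wt D ∅ V v := by
    intro v
    rw [hVd, wt_rm]
    exact lbn_wt L Fr S φ hφ hs E hE v
  have hlim' : Tendsto (fun Y : ℝ => (∑ s ∈ AF K Y, ∏ v ∈ s, H55.E2.wt D ∅ V v) /
      (Y * Real.log Y ^ (N - 1))) atTop (𝓝 l) := by
    refine hlim.congr fun Y => ?_
    congr 1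
    exact Finset.sum_congr rfl fun s _ => Finset.prod_congr rfl fun v _ => hw v
  have hz : ∀ j, ∃ C : ℝ, ∀ x : ℝ, 3 ≤ x →
      ∑ w ∈ PB (MF φ (S j)) x, (1 : ℝ) / nm w ≤ Real.log (Real.log x) + C := by
    intro j
    obtain ⟨C, A, hC, h⟩ := zt ((S j).index * Module.finrank ℚ K)
      (Nat.mul_pos (Nat.pos_of_ne_zero Subgroup.index_ne_zero_of_finite) Module.finrank_pos)
    refine ⟨A * Real.log (1 + Real.log (dd (MF φ (S j)))) + C, fun x hx => ?_⟩
    have h1 := h (MF φ (S j)) (mf_tc hp hp2 hζ φ hφ hs (S j)) x hx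
    linarith
  choose Cz hCz using hz
  obtain ⟨C, hCd⟩ : ∃ C : ℝ, C = ∑ j, |Cz j| := ⟨_, rfl⟩
  have hCj : ∀ j, Cz j ≤ C := fun j => by
    rw [hCd]
    exact (le_abs_self _).trans (Finset.single_le_sum (f := fun j => |Cz j|)
      (fun i _ => abs_nonneg _) (Finset.mem_univ j))
  have hV0 : ∀ j v, 0 ≤ V j v ∧ V j v ≤ Nat.card G := by
    intro j v
    rw [hVd]
    by_cases hv : v ∈ E
    · simp only [hv, if_true]
      exact ⟨le_rfl, Nat.cast_nonneg _⟩
    · simp only [hv, if_false]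
      exact ⟨fx_nonneg _ _, fx_le _ _⟩
  have hM : Mert D V C := by
    intro j x hx
    have h1 := ub_P K (MF φ (S j)) x
    have h2 : ∑ v ∈ ZZ D x, V j v / nm v ≤
        ∑ v ∈ PB K x, ((ubW K v : Finset (Pl (MF φ (S j)))).card : ℝ) / nm v := by
      have h3 : ∀ v ∈ ZZ D x, V j v / nm v ≤
          ((ubW K v : Finset (Pl (MF φ (S j)))).card : ℝ) / nm v := by
        intro v hv
        rw [mem_zz] at hv
        refine div_le_div_of_nonneg_right ?_ (Nat.cast_nonneg _)
        rw [hVd]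
        by_cases hvE : v ∈ E
        · simp only [hvE, if_true]
          exact Nat.cast_nonneg _
        · simp only [hvE, if_false]
          rw [fx_lab L Fr φ hφ hs (S j) hv.2 (hE v hv.2.1 hvE), ifa_ncard]
          exact le_rfl
      refine (Finset.sum_le_sum h3).trans ?_
      refine Finset.sum_le_sum_of_subset_of_nonneg (Finset.filter_subset _ _) fun v _ _ => ?_
      positivity
    have h3 := hCz j x hx
    have h4 := hCj j
    show ∑ v ∈ ZZ D x, V j v / nm v ≤ _
    linarith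
  refine ⟨l, hl, fun M ε hε hε1 => ?_⟩
  have h5 := rich_lim D V (Nat.card G) hV0 C hM l hlim' M ε hε hε1
  rw [hVd] at h5
  refine h5.congr fun Y => ?_
  rw [ws_rm]

end lim

end H1.UX
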