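import Pool.Agent.H1.UX.Ubu
import Pool.Agent.H1.UX.Hfx

/-!
# H1-UX-LV0: level zero (MP_b39724_nt, all classes, UBX, module U5)

`u5_core`: for a given honest reduction `φ` the sum over the class-rich configurations with exact labels of the weights `Gd N 0` is at most
`C (1 + log (nr E))^A Y (log Y)^(Nc-1)`, with `C`, `A` independent of `φ`, `E`, `L`, `M`, `T`, `Y`.
-/

set_option autoImplicit false
set_option linter.dupNamespace false

open scoped NumberField
open IsDedekindDomain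
open scoped Classical

noncomputable section

namespace H1.UX

open H63.MA H38.BB H38.BG H57.PC H57.BRA H77.PC3 H77.WD H77.WE H86.AP H88.E2 H35.UB
  H93.UB H35.CF H57.AN H55.E2

variable {K : Type} [Field K] [NumberField K] {p : ℕ} {ζ : K} {Ω : Type}
  [Field Ω] [Algebra K Ω] [IsAlgClosure K Ω] {P : Type} [Group P] [Fintype P] {Nc : ℕ}

theorem nm_le_nr {T : Finset (Pl K)} {v : Pl K} (hv : v ∈ T) : (nm v : ℝ) ≤ nr T := by
  unfold nr
  have h1 : ∀ w ∈ T, (1 : ℝ) ≤ (nm w : ℝ) := by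
    intro w _
    have h2 : nm w ≠ 0 := fun h => w.ne_bot (Ideal.absNorm_eq_zero_iff.1 h)
    exact_mod_cast Nat.one_le_iff_ne_zero.2 h2
  have h3 := Finset.prod_le_prod_of_subset_of_one_le (f := fun w => (nm w : ℝ))
    (Finset.singleton_subset_iff.2 hv) (fun w _ => by positivity) fun w hw _ => h1 w hw
  rw [Finset.prod_singleton] at h3
  exact_mod_cast h3

/-- the class-rich configurations with labels in the classes -/
theorem rc_of {D : RD0 K p ζ} [NeZero Nc] {Z E : Finset (Pl K)} (hZ : ∀ v ∈ Z, D.Gd v ∧ v ∉ E)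
    {f : Pl K → Option (Fin Nc)} (hf : f ∈ Cf Z (Fin Nc)) {T Y : ℝ} {M : ℕ}
    (h1 : Pat (id : Fin Nc → Fin Nc) Finset.univ Z T M f) (h2 : nc Z f ≤ Y) :
    f ∈ H86.AP.RC D Nc M T Y E ∧ sp (ZZ D Y \ E) f = sp Z f := by
  rw [mem_cf] at hf
  have h3 : ∀ v, f v ≠ none → v ∈ Z ∧ v ∈ ZZ D Y \ E := by
    intro v hv
    have hvZ : v ∈ Z := by
      by_contra h
      exact hv (hf v h)
    refine ⟨hvZ, ?_⟩
    rw [Finset.mem_sdiff, H55.E2.mem_zz]
    refine ⟨⟨?_, (hZ v hvZ).1⟩, (hZ v hvZ).2⟩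
    exact (nm_le_nr (mem_sp.2 ⟨hvZ, hv⟩)).trans h2
  have hsp : sp (ZZ D Y \ E) f = sp Z f := by
    ext v
    rw [mem_sp, mem_sp]
    exact ⟨fun h => ⟨(h3 v h.2).1, h.2⟩, fun h => ⟨(h3 v h.2).2, h.2⟩⟩
  refine ⟨?_, hsp⟩
  unfold H86.AP.RC
  rw [Finset.mem_filter]
  refine ⟨?_, ?_, ?_⟩
  · rw [mem_cf]
    intro v hv
    by_contra h
    exact hv (h3 v h).2
  · intro j
    have h4 := (h1 j).1 (Finset.mem_univ j)
    refine h4.trans (Finset.card_le_card ?_)
    intro v hv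
    rw [Finset.mem_filter] at hv
    rw [Finset.mem_filter, mem_pl]
    have h5 : f v = some j := by
      have := hv.2.2
      rwa [Option.map_id] at this
    exact ⟨⟨(h3 v (by rw [h5]; exact Option.some_ne_none j)).2, h5⟩, hv.2.1⟩
  · rw [hsp]
    exact h2

/-- LEVEL ZERO with a given reduction -/
theorem u5_core [NeZero Nc] (hp : p.Prime) (hp2 : MOne p K) (hζ : IsPrimitiveRoot ζ p)
    (D : RD0 K p ζ) (hP : IsPGroup p P) (c : CL p Nc P) (N : Subgroup P) [N.Normal]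
    (hN : ∀ i, c.g i ∈ N) :
    ∃ (C : ℝ) (A : ℕ), 1 ≤ C ∧ ∀ (L : LDs D Ω) (Fr : FR L) (φ : Gal(Ω/K) →* P ⧸ N),
      H38.ML.FT φ → Function.Surjective φ → ∀ E : Finset (Pl K), Unz L E φ →
      ∀ (M : ℕ) (T Y : ℝ), 3 ≤ Y → ∀ Z : Finset (Pl K), (∀ v ∈ Z, D.Gd v ∧ v ∉ E) →
      ∀ X : (Pl K → Option (Px c)) → Pl K → P,
      (∀ f ∈ Cf Z (Px c), ∀ v ∈ sp Z f, ((X f v : P) : P ⧸ N) = φ (Fr.F v)) →
      ∑ f ∈ Cf Z (Px c), (if Pat (cid (c := c)) Finset.univ Z T M f ∧ nc Z f ≤ Y then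
        om Z (fun v x => Gd N 0 x.1 (X f v)) f else 0) ≤
        C * (1 + Real.log (nr E)) ^ A * (Y * Real.log Y ^ (Nc - 1)) := by
  have hPN : IsPGroup p (P ⧸ N) := hP.to_quotient _
  obtain ⟨C, A, hC, h⟩ := ub_unif (Ω := Ω) hp hp2 hζ D hPN
    (fun i => (Subgroup.centralizer {c.g i}).map (QuotientGroup.mk' N))
  refine ⟨C, A, hC, fun L Fr φ hφ hs E hU M T Y hY Z hZ X hX => ?_⟩
  refine le_trans ?_ (h L Fr φ hφ hs E hU M T Y hY)
  -- replace the weights
  have e1 : ∀ f ∈ Cf Z (Px c), (if Pat (cid (c := c)) Finset.univ Z T M f ∧ nc Z f ≤ Y then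
        om Z (fun v x => Gd N 0 x.1 (X f v)) f else 0) =
      (if Pat (id : Fin Nc → Fin Nc) Finset.univ Z T M (mp cid f) ∧ nc Z (mp cid f) ≤ Y then
        (1 : ℝ) else 0) * om Z (fun v x => hq N x.1 (φ (Fr.F v))) f := by
    intro f hf
    have e2 : om Z (fun v x => Gd N 0 x.1 (X f v)) f =
        om Z (fun v x => hq N x.1 (φ (Fr.F v))) f := by
      rw [om_sp, om_sp]
      refine Finset.prod_congr rfl fun v hv => ?_
      have h1 := hX f hf v hv
      cases hfv : f v with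
      | none => rfl
      | some x =>
        show Gd N 0 x.1 (X f v) = hq N x.1 (φ (Fr.F v))
        rw [← h1, hq_mk]
    have e3 : Pat (id : Fin Nc → Fin Nc) Finset.univ Z T M (mp cid f) ↔
        Pat (cid (c := c)) Finset.univ Z T M f := by
      unfold Pat cn mp
      have : ∀ v, (((f v).map (cid (c := c))).map (id : Fin Nc → Fin Nc)) = (f v).map cid := by
        intro v
        rw [Option.map_id]
        rfl
      simp only [this]
    have e4 : nc Z (mp (cid (c := c)) f) = nc Z f := by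
      unfold nc
      congr 1
      ext v
      rw [mem_sp, mem_sp]
      unfold mp
      rw [Ne, Option.map_eq_none_iff]
    rw [e2, e4]
    by_cases h5 : Pat (cid (c := c)) Finset.univ Z T M f ∧ nc Z f ≤ Y
    · rw [if_pos h5, if_pos ⟨e3.2 h5.1, h5.2⟩, one_mul]
    · rw [if_neg h5, if_neg fun h => h5 ⟨e3.1 h.1, h.2⟩, zero_mul]
  rw [Finset.sum_congr rfl e1,
    cf_fib Z (cid (c := c)) (fun f => if Pat (id : Fin Nc → Fin Nc) Finset.univ Z T M f ∧
      nc Z f ≤ Y then (1 : ℝ) else 0) (fun _ v x => hq N x.1 (φ (Fr.F v)))]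
  have e5 : ∀ f ∈ Cf Z (Fin Nc),
      (if Pat (id : Fin Nc → Fin Nc) Finset.univ Z T M f ∧ nc Z f ≤ Y then (1 : ℝ) else 0) *
        om Z (fun v y => ∑ x ∈ Finset.univ.filter (fun x : Px c => cid x = y),
          hq N x.1 (φ (Fr.F v))) f =
      if Pat (id : Fin Nc → Fin Nc) Finset.univ Z T M f ∧ nc Z f ≤ Y then
        ∏ v ∈ sp (ZZ D Y \ E) f, H77.PT.fx ((Subgroup.centralizer {c.g (H86.AP.cf f v)}).map
          (QuotientGroup.mk' N)) (φ (Fr.F v)) else 0 := by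
    intro f hf
    by_cases h5 : Pat (id : Fin Nc → Fin Nc) Finset.univ Z T M f ∧ nc Z f ≤ Y
    · rw [if_pos h5, if_pos h5, one_mul, om_sp, (rc_of hZ hf h5.1 h5.2).2]
      refine Finset.prod_congr rfl fun v hv => ?_
      obtain ⟨y, hy⟩ := Option.ne_none_iff_exists'.1 (mem_sp.1 hv).2
      have h6 : H86.AP.cf f v = y := by
        unfold H86.AP.cf
        rw [hy]
        rfl
      rw [hy, h6]
      exact hcl_fx c N y (hN y) (φ (Fr.F v))
    · rw [if_neg h5, if_neg h5, zero_mul]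
  refine le_trans (le_of_eq (Finset.sum_congr rfl fun f hf => (?_ : _ =
    if Pat (id : Fin Nc → Fin Nc) Finset.univ Z T M f ∧ nc Z f ≤ Y then
        ∏ v ∈ sp (ZZ D Y \ E) f, H77.PT.fx ((Subgroup.centralizer {c.g (H86.AP.cf f v)}).map
          (QuotientGroup.mk' N)) (φ (Fr.F v)) else 0))) ?_
  · convert e5 f hf
    rfl
  rw [← Finset.sum_filter]
  unfold H55.E2.wS
  refine Finset.sum_le_sum_of_subset_of_nonneg ?_ fun f _ _ => ?_
  · intro f hf
    rw [Finset.mem_filter] at hf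
    exact (rc_of hZ hf.1 hf.2.1 hf.2.2).1
  · exact Finset.prod_nonneg fun v _ => H77.PT.fx_nonneg _ _

end H1.UX
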