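import Pool.Agent.H55.E2.Ana

/-!
# H1-UX-UBU: the upper bound of E2 uniformly in the places (MP_b39724_nt, all classes, UBX, module U5)

`mf_ddU`: the discriminant bound `mf_dd` (H77/PT/Fdb) with a constant which does not depend on the places `L`. `ub_unif`: `ub_gen` (H55/E2/Ana) with constants which
do not depend on the places `L` and the Frobenius elements `Fr`. Copies of the proved files.
-/

set_option autoImplicit false
set_option linter.dupNamespace false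

open scoped NumberField
open NumberField IsDedekindDomain Filter Topology
open scoped Classical

noncomputable section

namespace H1.UX

open H63.MA H38.BB H38.BG H57.PC H51.CUB H77.PC3 H77.PT H77.WE H36.QA H86.AP H35.CF H57.AN
  H51.MM H57.TLS H55.E2

variable {K : Type} [Field K] [NumberField K] {p : ℕ} {ζ : K} {Ω : Type}
  [Field Ω] [Algebra K Ω] [IsAlgClosure K Ω] {G : Type} [Group G]

theorem mf_ddU [Finite G] (D : RD0 K p ζ) (H : Subgroup G) :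
    ∃ C : ℝ, 1 ≤ C ∧ ∀ (L : LDs D Ω) (ρ : Gal(Ω/K) →* G), H38.ML.FT ρ → Function.Surjective ρ →
      ∀ T : Finset (Pl K), (∀ v, v ∉ D.S0 → v ∉ T → ∀ τ ∈ inr L v, ρ τ = 1) →
      ∀ [NumberField (MF ρ H)], dd (MF ρ H) ≤ C * nr T ^ H.index := by
  classical
  obtain ⟨n, hn⟩ : ∃ n : ℕ, n = H.index := ⟨_, rfl⟩
  set S : Set (Ideal (𝓞 K)) := ((D.S0.image fun v : Pl K => v.asIdeal : Finset (Ideal (𝓞 K))) :
    Set (Ideal (𝓞 K))) ∪
    {v : Ideal (𝓞 K) | v.IsPrime ∧ v ≠ ⊥ ∧ ((n.factorial : ℕ) : 𝓞 K) ∈ v} with hS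
  have hSf : S.Finite := (Finset.finite_toSet _).union (gdisu_fin n)
  obtain ⟨C, hC, hb⟩ := H38.ML.disc_bound Ω n S hSf (fun v hv hv0 hvS hmem =>
    hvS (Or.inr ⟨hv, hv0, hmem⟩))
  have hK1 : 1 ≤ (NumberField.discr K).natAbs :=
    Nat.one_le_iff_ne_zero.mpr (Int.natAbs_ne_zero.mpr (NumberField.discr_ne_zero K))
  refine ⟨((C * (NumberField.discr K).natAbs ^ n : ℕ) : ℝ), ?_, ?_⟩
  · exact_mod_cast Nat.mul_pos hC (Nat.pow_pos hK1)
  intro L ρ hρ hs T hT hnf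
  have hfd : FiniteDimensional K (MF ρ H) := mf_fin ρ hρ H
  have hdeg : Module.finrank K (MF ρ H) = n := by rw [hn]; exact mf_deg ρ hρ hs H
  set T₀ : Finset (Pl K) := T.filter fun v => v.asIdeal ∉ S with hT₀
  have hS0 : ∀ v : Pl K, v.asIdeal ∉ S → v ∉ D.S0 := by
    intro v hv h
    exact hv (Or.inl (Finset.mem_coe.2 (Finset.mem_image_of_mem _ h)))
  have hmain := hb (MF ρ H) hfd hnf hdeg (T₀.image fun v => v.asIdeal) n
    (by
      intro v hv
      obtain ⟨w, -, rfl⟩ := Finset.mem_image.1 hv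
      exact ⟨w.isPrime, w.ne_bot⟩)
    (by
      intro v hv
      obtain ⟨w, hw, rfl⟩ := Finset.mem_image.1 hv
      have hw0 := hS0 w (Finset.mem_filter.1 hw).2
      exact ⟨(L.ld w hw0).P, (L.ld w hw0).prime, (L.ld w hw0).under, Nat.le_add_right _ _⟩)
    (by
      intro v hv hv0 hvS hvT
      have hw0 : (⟨v, hv, hv0⟩ : Pl K) ∉ D.S0 := hS0 ⟨v, hv, hv0⟩ hvS
      have hwT : (⟨v, hv, hv0⟩ : Pl K) ∉ T := by
        intro h
        exact hvT (Finset.mem_image.2 ⟨⟨v, hv, hv0⟩, Finset.mem_filter.2 ⟨h, hvS⟩, rfl⟩)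
      refine ⟨(L.ld _ hw0).P, (L.ld _ hw0).prime, (L.ld _ hw0).under, ?_⟩
      rw [mf_orb ρ hρ H, hdeg]
      intro τ hτ
      have hτ' : τ ∈ inr L ⟨v, hv, hv0⟩ := by rw [dup_inr L _ hw0]; exact hτ
      exact hT _ hw0 hwT τ hτ')
  have hprod : ∏ v ∈ T₀.image (fun v : Pl K => v.asIdeal), Ideal.absNorm v ≤ ∏ v ∈ T, nm v := by
    rw [Finset.prod_image (fun a _ b _ h => HeightOneSpectrum.ext h)]
    refine Finset.prod_le_prod_of_subset_of_one_le' (Finset.filter_subset _ _) fun v _ _ => ?_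
    exact Nat.one_le_iff_ne_zero.2 fun h => v.ne_bot (Ideal.absNorm_eq_zero_iff.1 h)
  have h1 : Ideal.absNorm (differentIdeal (𝓞 K) (𝓞 (MF ρ H))) ≤ C * (∏ v ∈ T, nm v) ^ n :=
    le_trans hmain (Nat.mul_le_mul_left _ (Nat.pow_le_pow_left hprod _))
  have h2 := NumberField.natAbs_discr_eq_absNorm_differentIdeal_mul_natAbs_discr_pow
    K (𝓞 K) (MF ρ H) (𝓞 (MF ρ H))
  have h4 : dd (MF ρ H) = (((NumberField.discr (MF ρ H)).natAbs : ℕ) : ℝ) := by
    unfold dd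
    rw [Nat.cast_natAbs, Int.cast_abs]
  rw [h4, h2, hdeg, ← hn]
  have h5 : Ideal.absNorm (differentIdeal (𝓞 K) (𝓞 (MF ρ H))) *
      (NumberField.discr K).natAbs ^ n ≤
      (C * (∏ v ∈ T, nm v) ^ n) * (NumberField.discr K).natAbs ^ n :=
    Nat.mul_le_mul_right _ h1
  calc ((Ideal.absNorm (differentIdeal (𝓞 K) (𝓞 (MF ρ H))) *
        (NumberField.discr K).natAbs ^ n : ℕ) : ℝ)
      ≤ (((C * (∏ v ∈ T, nm v) ^ n) * (NumberField.discr K).natAbs ^ n : ℕ) : ℝ) := by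
        exact_mod_cast h5
    _ = _ := by
        unfold nr
        push_cast
        ring

variable {N : ℕ} [NeZero N]

theorem ub_unif [Finite G] (hp : p.Prime) (hp2 : MOne p K) (hζ : IsPrimitiveRoot ζ p)
    (D : RD0 K p ζ) (hG : IsPGroup p G) (S : Fin N → Subgroup G) :
    ∃ (C : ℝ) (A : ℕ), 1 ≤ C ∧ ∀ (L : LDs D Ω) (Fr : FR L) (φ : Gal(Ω/K) →* G),
    H38.ML.FT φ → Function.Surjective φ →
    ∀ E : Finset (Pl K), Unz L E φ → ∀ (M : ℕ) (T₀ Y : ℝ), 3 ≤ Y →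
      wS D N M T₀ Y E (fun j v => H77.PT.fx (S j) (φ (Fr.F v))) ≤
        C * (1 + Real.log (nr E)) ^ A * (Y * Real.log Y ^ (N - 1)) := by
  obtain ⟨d, hd⟩ : ∃ d : ℕ, d = ∑ j, (S j).index := ⟨_, rfl⟩
  have hdj : ∀ j, (S j).index ≤ d := fun j => by
    rw [hd]
    exact Finset.single_le_sum (f := fun j => (S j).index) (fun _ _ => Nat.zero_le _)
      (Finset.mem_univ j)
  obtain ⟨C, A, hC, hi⟩ := i3b K N d
  choose Cd hCd hdd using fun j => mf_ddU (Ω := Ω) D (S j)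
  obtain ⟨C', hC'⟩ : ∃ C' : ℝ, C' = ∑ j, Cd j := ⟨_, rfl⟩
  have hC'j : ∀ j, Cd j ≤ C' := fun j => by
    rw [hC']
    exact Finset.single_le_sum (f := Cd) (fun i _ => by linarith [hCd i]) (Finset.mem_univ j)
  have hC'1 : 1 ≤ C' := (hCd 0).trans (hC'j 0)
  have hlC' : 0 ≤ Real.log C' := Real.log_nonneg hC'1
  refine ⟨C * (1 + Real.log C' + d) ^ A, A, ?_, ?_⟩
  · refine one_le_mul_of_one_le_of_one_le hC (one_le_pow₀ ?_)
    have : (0 : ℝ) ≤ d := Nat.cast_nonneg d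
    linarith
  intro L Fr φ hφ hs E hU M T₀ Y hY
  have hE := unz_inr hp hζ L hG φ E hU
  have hnf := mf_nf φ hφ S
  have hnr : 1 ≤ nr E := one_le_nr E
  have hlE : 0 ≤ Real.log (nr E) := Real.log_nonneg hnr
  have h1 : ∀ j, dd (MF φ (S j)) ≤ C' * nr E ^ d := by
    intro j
    refine (hdd j L φ hφ hs E hE).trans ?_
    exact mul_le_mul (hC'j j) (pow_le_pow_right₀ hnr (hdj j)) (by positivity) (by linarith)
  have hD1 : 1 ≤ C' * nr E ^ d := one_le_mul_of_one_le_of_one_le hC'1 (one_le_pow₀ hnr)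
  have h2 := hi (fun j => MF φ (S j)) (fun j => (mf_tc hp hp2 hζ φ hφ hs (S j)).1)
    (fun j => by
      show Module.finrank K (MF φ (S j)) ≤ d
      rw [mf_deg φ hφ hs (S j)]
      exact hdj j) (C' * nr E ^ d) hD1 h1 (D.S0 ∪ E) Finset.univ
    ⟨0, Finset.mem_univ _⟩ Y hY
  rw [Finset.card_univ, Fintype.card_fin] at h2
  have h3 := ws_le D M T₀ Y E (fun j v => H77.PT.fx (S j) (φ (Fr.F v)))
    (fun j v => fx_nonneg _ _)
  refine h3.trans ?_
  have h4 : ∑ s ∈ AF K Y, ∏ v ∈ s, wt D E (fun j v => H77.PT.fx (S j) (φ (Fr.F v))) v =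
      ∑ s ∈ AF K Y, ∏ v ∈ s,
        (lbn K (fun j => MF φ (S j)) Finset.univ (D.S0 ∪ E) v : ℝ) :=
    Finset.sum_congr rfl fun s _ => Finset.prod_congr rfl fun v _ =>
      (lbn_wt L Fr S φ hφ hs E hE v).symm
  rw [h4]
  refine h2.trans ?_
  have hLY : 0 ≤ Real.log Y := Real.log_nonneg (by linarith)
  refine mul_le_mul_of_nonneg_right ?_ (by positivity)
  rw [mul_assoc, ← mul_pow]
  refine mul_le_mul_of_nonneg_left ?_ (by linarith)
  refine pow_le_pow_left₀ (by have := Real.log_nonneg hD1; linarith) ?_ A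
  have hn0 : 0 < nr E := by linarith
  rw [Real.log_mul (by linarith) (by positivity), Real.log_pow]
  have : (0 : ℝ) ≤ d := Nat.cast_nonneg d
  nlinarith [mul_nonneg hlC' hlE]

/-- the weights do not depend on the places -/
theorem fx_ind {D : RD0 K p ζ} (L L' : LDs D Ω) (Fr : FR L) (Fr' : FR L') (φ : Gal(Ω/K) →* G)
    (hφ : H38.ML.FT φ) (hs : Function.Surjective φ) (H : Subgroup G) {v : Pl K}
    (hv : D.Gd v) (h : ∀ τ ∈ inr L v, φ τ = 1) (h' : ∀ τ ∈ inr L' v, φ τ = 1) [Finite G] :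
    fx H (φ (Fr.F v)) = fx H (φ (Fr'.F v)) := by
  haveI := mf_fin φ hφ H
  haveI : NumberField (MF φ H) := NumberField.of_module_finite K (MF φ H)
  rw [fx_lab L Fr φ hφ hs H hv h, fx_lab L' Fr' φ hφ hs H hv h']

/-- the weighted sums do not depend on the places -/
theorem ws_ind [Finite G] (hp : p.Prime) (hζ : IsPrimitiveRoot ζ p) {D : RD0 K p ζ}
    (L L' : LDs D Ω) (Fr : FR L) (Fr' : FR L') (hG : IsPGroup p G) (S : Fin N → Subgroup G)
    (φ : Gal(Ω/K) →* G) (hφ : H38.ML.FT φ) (hs : Function.Surjective φ) (E : Finset (Pl K))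
    (hU : Unz L E φ) (hU' : Unz L' E φ) (M : ℕ) (T₀ Y : ℝ) :
    wS D N M T₀ Y E (fun j v => H77.PT.fx (S j) (φ (Fr.F v))) =
      wS D N M T₀ Y E (fun j v => H77.PT.fx (S j) (φ (Fr'.F v))) := by
  have hE := unz_inr hp hζ L hG φ E hU
  have hE' := unz_inr hp hζ L' hG φ E hU'
  unfold wS
  refine Finset.sum_congr rfl fun f _ => Finset.prod_congr rfl fun v hv => ?_
  unfold sp at hv
  rw [Finset.mem_filter, Finset.mem_sdiff, mem_zz] at hv
  have h1 : v ∉ D.S0 := hv.1.1.2.1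
  exact fx_ind L L' Fr Fr' φ hφ hs (S _) hv.1.1.2 (hE v h1 hv.1.2) (hE' v h1 hv.1.2)

end H1.UX
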