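import Pool.Agent.H1.UX.Lv0
import Pool.Agent.H35.UB.Bad

/-!
# H1-UX-UF: module U5 of UBX (MP_b39724_nt, all classes)

`u5_one`: fixed labels `e` at `E` and values `α` at the `a_i`: the sum over the class-rich configurations with honest reduction modulo `N` of the weights `Gd N 0` at all
primes of the support, for any system of words `X` for the Frobenius elements, with the cutoff `psi (nc / Y)`. `u5_sum`: the sum over the labels at `E` and the values `α`.
The constants depend only on `K`, `D`, `P`, `N`, `c`.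
-/

set_option autoImplicit false
set_option linter.dupNamespace false

open scoped NumberField
open IsDedekindDomain
open scoped Classical

noncomputable section

namespace H1.UX

open H63.MA H38.BB H38.BG H57.PC H57.BRA H77.PC3 H77.WD H77.WE H86.AP H88.E2 H35.UB
  H93.UB H35.CF H57.AN H55.E2

variable {K : Type} [Field K] [NumberField K] {p : ℕ} {ζ : K} {Ω : Type}
  [Field Ω] [Algebra K Ω] [IsAlgClosure K Ω] {P : Type} [Group P] [Fintype P] {Nc : ℕ}

/-- the sum of level zero for fixed labels at `E` and values `α` -/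
def U5s {D : RD0 K p ζ} (L : LDs D Ω) (A : GS D Ω) (c : CL p Nc P) (N : Subgroup P) [N.Normal]
    (Zw E : Finset (Pl K)) (X : Pl K → FW A) (e : Pl K → P) (α : Fin A.g → P) (M : ℕ)
    (T Y : ℝ) : ℝ :=
  ∑ f ∈ Cf (Zg D Zw E) (Px c),
    if Pat (cid (c := c)) Finset.univ (Zg D Zw E) T M f ∧
        Hs L A E N (sp (Zg D Zw E) f) (ev A (lab E e (fun x : Px c => x.1) f) α) then
      psi (nc (Zg D Zw E) f / Y) * om (Zg D Zw E) (fun v x =>
        Gd N 0 x.1 (ev A (lab E e (fun x : Px c => x.1) f) α (X v))) f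
    else 0

omit [Fintype P] [IsAlgClosure K Ω] in
theorem px_mem {c : CL p Nc P} {N : Subgroup P} [N.Normal] (hN : ∀ i, c.g i ∈ N) (x : Px c) :
    x.1 ∈ N := by
  obtain ⟨i, hi⟩ := x.2
  obtain ⟨y, hy⟩ := isConj_iff.1 hi.symm
  rw [← hy]
  exact (inferInstance : N.Normal).conj_mem _ (hN i) y

omit [Fintype P] [IsAlgClosure K Ω] in
/-- the reduction of the evaluation does not depend on the configuration -/
theorem ev_red {D : RD0 K p ζ} (A : GS D Ω) {c : CL p Nc P} {N : Subgroup P} [N.Normal]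
    (hN : ∀ i, c.g i ∈ N) (E : Finset (Pl K)) (e : Pl K → P) (α : Fin A.g → P)
    (f f' : Pl K → Option (Px c)) :
    (QuotientGroup.mk' N).comp (ev A (lab E e (fun x : Px c => x.1) f) α) =
      (QuotientGroup.mk' N).comp (ev A (lab E e (fun x : Px c => x.1) f') α) := by
  have h1 : ∀ (f : Pl K → Option (Px c)) (v : Pl K), v ∉ E →
      QuotientGroup.mk' N (lab E e (fun x : Px c => x.1) f v) = 1 := by
    intro f v hv
    unfold lab
    rw [if_neg hv]
    cases f v with
    | none => exact map_one _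
    | some x => exact (QuotientGroup.eq_one_iff (x.1 : P)).2 (px_mem hN x)
  refine FreeGroup.ext_hom _ _ fun y => ?_
  rw [MonoidHom.comp_apply, MonoidHom.comp_apply]
  unfold ev
  rw [FreeGroup.lift_apply_of, FreeGroup.lift_apply_of]
  cases y with
  | inl v =>
    show QuotientGroup.mk' N (lab E e (fun x : Px c => x.1) f v) =
      QuotientGroup.mk' N (lab E e (fun x : Px c => x.1) f' v)
    by_cases hv : v ∈ E
    · unfold lab
      rw [if_pos hv, if_pos hv]
    · rw [h1 f v hv, h1 f' v hv]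
  | inr i => rfl

theorem psi_le_one (t : ℝ) : H35.UB.psi t ≤ 1 := min_le_left _ _

theorem psi_zero {t : ℝ} (h : 2 < t) : H35.UB.psi t = 0 := by
  unfold H35.UB.psi
  rw [max_eq_left (by linarith)]
  exact min_eq_right zero_le_one

theorem log_two_mul {Y : ℝ} (hY : 3 ≤ Y) : Real.log (2 * Y) ≤ 2 * Real.log Y := by
  rw [Real.log_mul (by norm_num) (by linarith)]
  have : Real.log 2 ≤ Real.log Y := Real.log_le_log (by norm_num) (by linarith)
  linarith

/-- MODULE U5, fixed labels -/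
theorem u5_one [NeZero Nc] (hp : p.Prime) (hp2 : MOne p K) (hζ : IsPrimitiveRoot ζ p)
    (D : RD0 K p ζ) (hP : IsPGroup p P) (c : CL p Nc P) (N : Subgroup P) [N.Normal]
    (hN : ∀ i, c.g i ∈ N) :
    ∃ (C : ℝ) (A' : ℕ), 1 ≤ C ∧ ∀ (L : LDs D Ω) (Fr : FR L) (A : GS D Ω) (Zw E : Finset (Pl K)),
      E ⊆ Zw → ∀ X : Pl K → FW A,
      (∀ φ : Gal(Ω/K) →* P ⧸ N, Unz L Zw φ → ∀ v ∈ Zw, hat L A φ (X v) = φ (Fr.F v)) →
      ∀ (e : Pl K → P) (α : Fin A.g → P) (M : ℕ) (T Y : ℝ), 3 ≤ Y →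
      U5s L A c N Zw E X e α M T Y ≤
        C * (1 + Real.log (nr E)) ^ A' * (Y * Real.log Y ^ (Nc - 1)) := by
  obtain ⟨C, A', hC, h⟩ := u5_core (Ω := Ω) hp hp2 hζ D hP c N hN
  refine ⟨C * (2 * 2 ^ (Nc - 1)), A', ?_, fun L Fr A Zw E hEZ X hX e α M T Y hY => ?_⟩
  · have : (1 : ℝ) ≤ 2 ^ (Nc - 1) := one_le_pow₀ (by norm_num)
    nlinarith
  obtain ⟨Z, hZ⟩ : ∃ Z : Finset (Pl K), Z = Zg D Zw E := ⟨_, rfl⟩
  have hZg : ∀ v ∈ Z, D.Gd v ∧ v ∉ E ∧ v ∈ Zw := by
    intro v hv
    rw [hZ] at hv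
    unfold Zg at hv
    rw [Finset.mem_filter, Finset.mem_sdiff] at hv
    exact ⟨hv.2, hv.1.2, hv.1.1⟩
  have hLY : 0 ≤ Real.log Y := Real.log_nonneg (by linarith)
  have hlE : 0 ≤ Real.log (nr E) := Real.log_nonneg (one_le_nr E)
  have hrhs : 0 ≤ C * (2 * 2 ^ (Nc - 1)) * (1 + Real.log (nr E)) ^ A' *
      (Y * Real.log Y ^ (Nc - 1)) := by
    have : 0 ≤ C := by linarith
    have : 0 ≤ Y := by linarith
    positivity
  unfold U5s
  rw [← hZ]
  by_cases hex : ∃ f ∈ Cf Z (Px c),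
      Hs L A E N (sp Z f) (ev A (lab E e (fun x : Px c => x.1) f) α)
  · obtain ⟨f₀, hf₀, φ, hφ1, hφ2, hφ3⟩ := hex
    have hU : Unz L E φ := by
      refine ⟨hφ1.1, fun v hv hE => ?_⟩
      have h1 := congrArg (fun g : FW A →* P ⧸ N => g (FreeGroup.of (Sum.inl v))) hφ3
      beta_reduce at h1
      rw [MonoidHom.comp_apply] at h1
      have h2 : hat L A φ (FreeGroup.of (Sum.inl v)) = φ (L.t v) := by
        unfold hat
        rw [FreeGroup.lift_apply_of]
        rfl
      rw [← h2, h1]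
      unfold ev
      rw [FreeGroup.lift_apply_of]
      show QuotientGroup.mk' N (lab E e (fun x : Px c => x.1) f₀ v) = 1
      unfold lab
      rw [if_neg hE]
      cases f₀ v with
      | none => exact map_one _
      | some x => exact (QuotientGroup.eq_one_iff (x.1 : P)).2 (px_mem hN x)
    have hUZ : Unz L Zw φ := ⟨hU.1, fun v hv hvZ => hU.2 v hv fun h => hvZ (hEZ h)⟩
    have hXf : ∀ f ∈ Cf Z (Px c), ∀ v ∈ sp Z f,
        ((ev A (lab E e (fun x : Px c => x.1) f) α (X v) : P) : P ⧸ N) = φ (Fr.F v) := by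
      intro f _ v hv
      have h1 := ev_red A hN E e α f f₀
      have h2 : QuotientGroup.mk' N (ev A (lab E e (fun x : Px c => x.1) f) α (X v)) =
          (QuotientGroup.mk' N).comp (ev A (lab E e (fun x : Px c => x.1) f₀) α) (X v) := by
        rw [← h1]
        rfl
      rw [← hφ3, hX φ hUZ v (hZg v (mem_sp.1 hv).1).2.2] at h2
      exact h2
    have h3 := h L Fr φ hφ1.1 hφ2 E hU M T (2 * Y) (by linarith) Z
      (fun v hv => ⟨(hZg v hv).1, (hZg v hv).2.1⟩)
      (fun f v => ev A (lab E e (fun x : Px c => x.1) f) α (X v)) hXf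
    refine le_trans (Finset.sum_le_sum fun f _ => ?_) (h3.trans ?_)
    · have hom : 0 ≤ om Z (fun v x =>
          Gd N 0 x.1 (ev A (lab E e (fun x : Px c => x.1) f) α (X v))) f :=
        om_nonneg _ _ (fun v x => gd_nonneg _ _ _ _) f
      by_cases h5 : Pat (cid (c := c)) Finset.univ Z T M f ∧
          Hs L A E N (sp Z f) (ev A (lab E e (fun x : Px c => x.1) f) α)
      · rw [if_pos h5]
        by_cases h6 : nc Z f ≤ 2 * Y
        · rw [if_pos ⟨h5.1, h6⟩]
          exact mul_le_of_le_one_left hom (psi_le_one _)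
        · rw [if_neg fun h => h6 h.2, psi_zero, zero_mul]
          rw [lt_div_iff₀ (by linarith)]
          linarith
      · rw [if_neg h5]
        split_ifs
        · exact hom
        · exact le_rfl
    · have h7 : Real.log (2 * Y) ^ (Nc - 1) ≤ (2 * Real.log Y) ^ (Nc - 1) :=
        pow_le_pow_left₀ (Real.log_nonneg (by linarith)) (log_two_mul hY) _
      rw [mul_pow] at h7
      have h8 : 0 ≤ C * (1 + Real.log (nr E)) ^ A' := by
        have : 0 ≤ C := by linarith
        positivity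
      calc C * (1 + Real.log (nr E)) ^ A' * (2 * Y * Real.log (2 * Y) ^ (Nc - 1)) ≤
          C * (1 + Real.log (nr E)) ^ A' *
            (2 * Y * (2 ^ (Nc - 1) * Real.log Y ^ (Nc - 1))) := by
            refine mul_le_mul_of_nonneg_left ?_ h8
            exact mul_le_mul_of_nonneg_left h7 (by linarith)
        _ = _ := by ring
  · refine le_trans (le_of_eq (Finset.sum_eq_zero fun f hf => ?_)) hrhs
    rw [if_neg]
    exact fun h => hex ⟨f, hf, h.2⟩

/-- MODULE U5, the sum over the labels at `E` and the values `α` -/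
theorem u5_sum [NeZero Nc] (hp : p.Prime) (hp2 : MOne p K) (hζ : IsPrimitiveRoot ζ p)
    (D : RD0 K p ζ) (hP : IsPGroup p P) (c : CL p Nc P) (N : Subgroup P) [N.Normal]
    (hN : ∀ i, c.g i ∈ N) :
    ∃ (C : ℝ) (A' : ℕ), 1 ≤ C ∧ ∀ (L : LDs D Ω) (Fr : FR L) (A : GS D Ω) (Zw E : Finset (Pl K)),
      E ⊆ Zw → ∀ X : Pl K → FW A,
      (∀ φ : Gal(Ω/K) →* P ⧸ N, Unz L Zw φ → ∀ v ∈ Zw, hat L A φ (X v) = φ (Fr.F v)) →
      ∀ (M : ℕ) (T Y : ℝ), 3 ≤ Y →
      ∑ e : E → P, ∑ α : Fin A.g → P,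
        U5s L A c N Zw E X (fun v => if h : v ∈ E then e ⟨v, h⟩ else 1) α M T Y ≤
        (Nat.card P : ℝ) ^ (E.card + A.g) *
          (C * (1 + Real.log (nr E)) ^ A' * (Y * Real.log Y ^ (Nc - 1))) := by
  obtain ⟨C, A', hC, h⟩ := u5_one (Ω := Ω) hp hp2 hζ D hP c N hN
  refine ⟨C, A', hC, fun L Fr A Zw E hEZ X hX M T Y hY => ?_⟩
  refine (Finset.sum_le_sum fun e _ => Finset.sum_le_sum fun α _ =>
    h L Fr A Zw E hEZ X hX _ α M T Y hY).trans (le_of_eq ?_)
  rw [Finset.sum_const, Finset.sum_const, Finset.card_univ, Finset.card_univ, Fintype.card_fun,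
    Fintype.card_fun, Fintype.card_fin, Fintype.card_coe, nsmul_eq_mul, nsmul_eq_mul,
    Nat.card_eq_fintype_card, pow_add]
  push_cast
  ring

end H1.UX
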